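import Pool.Agent.Helper57.KE.St
import Pool.Agent.Helper57.KR.Gen

/-!
# The lower half: assembly
-/

set_option autoImplicit false

open scoped BigOperators
open Finset

namespace Pool.Agent.Helper57.KE

open Pool.Agent.Helper65.RG Pool.Agent.Helper57.KR

universe u

lemma ss_pos {c : ℝ} (hc : 1 < c) : 0 < ss c := by
  unfold ss
  apply Real.sqrt_pos.2
  have : 1 / c ^ 2 < 1 := by
    rw [div_lt_one (by positivity)]
    nlinarith
  linarith

lemma ss_lt_one {c : ℝ} (hc : 1 < c) : ss c < 1 := by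
  unfold ss
  rw [Real.sqrt_lt' one_pos]
  have : 0 < 1 / c ^ 2 := by positivity
  linarith

lemma one_sub_pp {c : ℝ} (hc : 1 < c) : 1 - pp c = 2 * (ss c / (1 + ss c)) := by
  have := ss_pos hc
  unfold pp
  field_simp
  ring

lemma exists_smaller {c a : ℝ} (hc : 1 < c) (ha : a < ss c / (1 + ss c)) :
    ∃ c' : ℝ, 1 < c' ∧ c' < c ∧ a < ss c' / (1 + ss c') := by
  have h0 := ss_pos hc
  have hs : ContinuousAt ss c := by
    unfold ss
    apply ContinuousAt.sqrt
    apply ContinuousAt.sub continuousAt_const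
    apply ContinuousAt.div continuousAt_const (continuousAt_id.pow 2)
    exact pow_ne_zero 2 (by linarith : (0 : ℝ) < c).ne'
  have hf : ContinuousAt (fun x => ss x / (1 + ss x)) c :=
    hs.div (continuousAt_const.add hs) (by linarith)
  have h1 : ∀ᶠ x in nhdsWithin c (Set.Iio c), a < ss x / (1 + ss x) :=
    (hf.eventually (lt_mem_nhds ha)).filter_mono nhdsWithin_le_nhds
  have h2 : ∀ᶠ x in nhdsWithin c (Set.Iio c), x ∈ Set.Ioo 1 c := Ioo_mem_nhdsLT hc
  obtain ⟨x, hx1, hx2⟩ := (h1.and h2).exists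
  exact ⟨x, hx2.1, hx2.2, hx1⟩

/-- the lower half -/
theorem lower_exact (hSCH : StSCH) (hPOL : StPOL) (hONE : StONE) (hVPR : StVPR) (hBIG : StBIG)
    (hSML : StSML) (hCRU : StCRU) {c γ : ℝ} (hc : 1 < c) (hγ : γ < 1 - pp c) :
    ∃ T : HS.{u} →L[ℂ] HS.{u}, spectrum ℂ T ⊆ Metric.closedBall 0 1 ∧
      (∀ z : ℂ, 1 < ‖z‖ → ‖z‖ ≤ 2 → ‖resolvent T z‖ ≤ c / (‖z‖ - 1)) ∧
      ∃ m : ℝ, 0 < m ∧ ∀ n : ℕ, m * (1 + (n : ℝ)) ^ γ ≤ ‖T ^ n‖ := by
  have hs0 := ss_pos hc
  rw [one_sub_pp hc] at hγ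
  set a0 : ℝ := ss c / (1 + ss c) with ha0
  have ha0pos : 0 < a0 := by positivity
  obtain ⟨a, haγ, ha, ha1⟩ : ∃ a : ℝ, γ ≤ 2 * a ∧ 0 < a ∧ a < a0 := by
    refine ⟨max (γ / 2) (a0 / 2), ?_, ?_, ?_⟩
    · have := le_max_left (γ / 2) (a0 / 2)
      linarith
    · exact lt_of_lt_of_le (by positivity) (le_max_right _ _)
    · apply max_lt <;> linarith
  obtain ⟨c', hc'1, hc'c, hac'⟩ := exists_smaller hc ha1
  have hs'0 := ss_pos hc'1
  have hs'1 := ss_lt_one hc'1
  have ha2 : a < 1 / 2 := by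
    refine hac'.trans_le ?_
    rw [div_le_div_iff₀ (by linarith) (by norm_num)]
    linarith
  obtain ⟨δ1, i1, hδ1, hδ11, hi1, hone⟩ := hONE hSCH hPOL c' a hc'1 ha hac'
  have h12a : 0 < 1 - 2 * a := by linarith
  obtain ⟨i0, hi0⟩ : ∃ i0 : ℕ, max (i1 : ℝ) (1 / (δ1 * (c - 1))) ≤ i0 := exists_nat_ge _
  have hi01 : i1 ≤ i0 := by
    have := (le_max_left (i1 : ℝ) (1 / (δ1 * (c - 1)))).trans hi0
    exact_mod_cast this
  have hi02 : 1 / ((i0 : ℝ) * δ1) ≤ c - 1 := by
    have h1 := (le_max_right (i1 : ℝ) (1 / (δ1 * (c - 1)))).trans hi0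
    have hi0p : (0 : ℝ) < i0 := by
      have : 1 ≤ i0 := hi1.trans hi01
      exact_mod_cast this
    have hcc : 0 < c - 1 := by linarith
    rw [div_le_iff₀ (by positivity)] at h1 ⊢
    linarith
  have hi0ge : 1 ≤ i0 := hi1.trans hi01
  have hi0r : (1 : ℝ) ≤ i0 := by exact_mod_cast hi0ge
  set B : ℝ := 2 / (1 - 2 * a) * (1 + i0) + 1 with hB
  have hB0 : 0 ≤ B := by positivity
  set B' : ℝ := 4 / (1 - 2 * a) with hB'
  have hB'4 : 4 ≤ B' := by
    rw [hB', le_div_iff₀ h12a]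
    linarith
  set L0 : ℝ := max 17 ((4 + 128 * B) / (c - c')) with hL0
  have hL17 : 17 ≤ L0 := le_max_left _ _
  have hcc' : 0 < c - c' := by linarith
  have hLc : (4 + 128 * B) / L0 ≤ c - c' := by
    have h1 : (4 + 128 * B) / (c - c') ≤ L0 := le_max_right _ _
    rw [div_le_iff₀ hcc'] at h1
    rw [div_le_iff₀ (by linarith)]
    linarith
  set t : ℝ := min (1 / 2) ((c - 1) / (3 * L0)) with ht
  have ht0 : 0 < t := lt_min (by norm_num) (div_pos (by linarith) (by positivity))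
  have ht1 : t ≤ 1 / 2 := min_le_left _ _
  have ht2 : (2 * t + t ^ 2) * L0 ≤ c - 1 := by
    have h1 : t ≤ (c - 1) / (3 * L0) := min_le_right _ _
    rw [le_div_iff₀ (by positivity)] at h1
    have h2 : 2 * t + t ^ 2 ≤ 3 * t := by nlinarith
    calc (2 * t + t ^ 2) * L0 ≤ 3 * t * L0 := by gcongr
      _ = t * (3 * L0) := by ring
      _ ≤ c - 1 := h1
  set θ : ℝ := t ^ 2 / B' with hθ
  have hθ0 : 0 < θ := by positivity
  have hθ1 : θ ≤ 1 / 16 := by
    rw [hθ, div_le_iff₀ (by linarith)]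
    nlinarith
  have hBθ : B' * θ = t ^ 2 := by
    rw [hθ]
    field_simp
  -- the plateau
  set MM : ℕ → ℕ := fun N => ⌊θ * ((N : ℝ) + 1)⌋₊ with hMM
  have hMle : ∀ N : ℕ, (MM N : ℝ) ≤ θ * ((N : ℝ) + 1) := fun N => Nat.floor_le (by positivity)
  have hMge : ∀ N : ℕ, θ * ((N : ℝ) + 1) ≤ (MM N : ℝ) + 1 := fun N => (Nat.lt_floor_add_one _).le
  have hM8 : ∀ N : ℕ, 8 * MM N ≤ N := by
    intro N
    rcases Nat.eq_zero_or_pos N with h | h
    · subst h
      have h1 := hMle 0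
      have h2 : (MM 0 : ℝ) < 1 := by
        refine h1.trans_lt ?_
        push_cast
        linarith
      have h3 : MM 0 < 1 := by exact_mod_cast h2
      omega
    · have h1 := hMle N
      have h2 : (1 : ℝ) ≤ N := by exact_mod_cast h
      have h3 : (8 * MM N : ℝ) ≤ N := by nlinarith
      exact_mod_cast h3
  have hMN : ∀ N : ℕ, MM N ≤ N := fun N => by have := hM8 N; omega
  set W : ℕ → ℕ → ℝ := fun N i => ph a i0 (MM N) i / ph a i0 (MM N) (N - i) with hW
  have hWpos : ∀ N i, 0 < W N i := by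
    intro N i
    obtain ⟨h1, -⟩ := hVPR a i0 (MM N) ha ha2 hi0ge
    exact div_pos (h1 _) (h1 _)
  have hK : ∀ δ : ℝ, 0 < δ → δ ≤ 1 → ∀ N : ℕ,
      KB (fun i j : Fin (N + 1) => k1 δ i j * (W N i / W N j)) (c * δ⁻¹) := by
    intro δ hδ hδ1' N
    obtain ⟨v1, v2, v3, v4, v5, v6, v7, v8⟩ := hVPR a i0 (MM N) ha ha2 hi0ge
    have hup : ∀ i, ph a i0 (MM N) i ≤ ph a i0 (MM N) (MM N) := by
      intro i
      rcases le_total i (MM N) with h | h
      · exact v3 _ _ h
      · exact (v4 i h).le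
    have hδi : 0 < δ⁻¹ := by positivity
    by_cases hδc : δ1 ≤ δ
    · -- crude
      have h := hCRU (ph a i0 (MM N)) δ i0 N v1 hi0ge hδ hδ1' v6
      refine h.mono (fun i j => le_rfl) ?_
      gcongr
      have h2 : 1 / ((i0 : ℝ) * δ) ≤ 1 / ((i0 : ℝ) * δ1) := by gcongr
      linarith
    · push Not at hδc
      by_cases hL : L0 ≤ δ * ((N : ℝ) + 1)
      · -- big
        have hN16 : 16 ≤ N := by
          have h1 : 17 ≤ (N : ℝ) + 1 := by
            have : δ * ((N : ℝ) + 1) ≤ 1 * ((N : ℝ) + 1) := by gcongr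
            linarith
          have h2 : (16 : ℝ) ≤ N := by linarith
          exact_mod_cast h2
        have h7 : ph a i0 (MM N) (MM N) ^ 2 * ∑ j ∈ range (N + 1), (ph a i0 (MM N) j ^ 2)⁻¹ ≤
            B * ((N : ℝ) + 1) := by
          have hsp : ∑ j ∈ range (N + 1), (ph a i0 (MM N) j ^ 2)⁻¹ =
              ∑ j ∈ range (MM N), (ph a i0 (MM N) j ^ 2)⁻¹ +
              ∑ j ∈ Ico (MM N) (N + 1), (ph a i0 (MM N) j ^ 2)⁻¹ := by
            rw [range_eq_Ico, range_eq_Ico]
            exact (sum_Ico_consecutive _ (Nat.zero_le _) (by have := hMN N; omega)).symm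
          have hco : ∑ j ∈ Ico (MM N) (N + 1), (ph a i0 (MM N) j ^ 2)⁻¹ =
              ((N + 1 - MM N : ℕ) : ℝ) * (ph a i0 (MM N) (MM N) ^ 2)⁻¹ := by
            rw [sum_congr rfl (g := fun _ => (ph a i0 (MM N) (MM N) ^ 2)⁻¹)]
            · rw [sum_const, Nat.card_Ico, nsmul_eq_mul]
            · intro j hj
              rw [v4 j (mem_Ico.1 hj).1]
          rw [hsp, hco, mul_add]
          have hΦ := v1 (MM N)
          have e1 : ph a i0 (MM N) (MM N) ^ 2 *
              (((N + 1 - MM N : ℕ) : ℝ) * (ph a i0 (MM N) (MM N) ^ 2)⁻¹) =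
              ((N + 1 - MM N : ℕ) : ℝ) := by
            field_simp
          rw [e1]
          have e2 : ((N + 1 - MM N : ℕ) : ℝ) ≤ (N : ℝ) + 1 := by
            have : N + 1 - MM N ≤ N + 1 := Nat.sub_le _ _
            exact_mod_cast this
          have e3 : ((MM N : ℝ) + i0) ≤ (1 + i0) * ((N : ℝ) + 1) := by
            have h1 : (MM N : ℝ) ≤ N := by exact_mod_cast hMN N
            have h2 : (0 : ℝ) ≤ N := Nat.cast_nonneg N
            nlinarith
          have e4 : 2 / (1 - 2 * a) * ((MM N : ℝ) + i0) ≤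
              2 / (1 - 2 * a) * ((1 + i0) * ((N : ℝ) + 1)) := by gcongr
          rw [hB]
          linarith
        have h := hBIG (ph a i0 (MM N)) (ph a i0 (MM N) (MM N)) B c' δ (MM N) N v1 hup v4 (hM8 N)
          hN16 hδ hδ1' (by linarith) hB0 (hone i0 hi01 (MM N) N δ hδ hδc.le) h7
        refine h.mono (fun i j => le_rfl) ?_
        gcongr
        have h2 : (4 + 128 * B) / (δ * ((N : ℝ) + 1)) ≤ (4 + 128 * B) / L0 := by gcongr
        linarith
      · -- small
        push Not at hL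
        have h := hSML (ph a i0 (MM N)) (ph a i0 (MM N) (MM N)) (B' * MM N) δ (MM N) N v1 hup v4
          (hMN N) hδ hδ1' v8
        refine h.mono (fun i j => le_rfl) ?_
        set n1 : ℝ := (N : ℝ) + 1 with hn1
        have hn0 : 0 < n1 := by positivity
        have hS : B' * (MM N : ℝ) ≤ t ^ 2 * n1 := by
          calc B' * (MM N : ℝ) ≤ B' * (θ * n1) := by
                gcongr
                exact hMle N
            _ = t ^ 2 * n1 := by rw [← hBθ]; ring
        have hsq : √(n1 * (B' * (MM N : ℝ))) ≤ t * n1 := by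
          apply Real.sqrt_le_iff.2
          constructor
          · positivity
          · calc n1 * (B' * (MM N : ℝ)) ≤ n1 * (t ^ 2 * n1) := by gcongr
              _ = (t * n1) ^ 2 := by ring
        have h3 : (2 * t + t ^ 2) * n1 ≤ (c - 1) * δ⁻¹ := by
          have h4 : (2 * t + t ^ 2) * (δ * n1) ≤ c - 1 := by
            refine le_trans ?_ ht2
            gcongr
          rw [← div_eq_mul_inv, le_div_iff₀ hδ]
          linarith
        linarith
  obtain ⟨T, h1, h2, h3⟩ := exists_operatorg.{u} hWpos (C := c) (by linarith) hK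
  refine ⟨T, h1, h2, (θ / i0) ^ (2 * a), by positivity, fun n => ?_⟩
  refine le_trans ?_ (h3 n)
  obtain ⟨v1, v2, v3, v4, v5, v6, v7, v8⟩ := hVPR a i0 (MM n) ha ha2 hi0ge
  simp only [hW, Nat.sub_self, Nat.sub_zero]
  rw [v2, div_one, one_div, div_inv_eq_mul, ← sq, v4 n (hMN n)]
  refine le_trans ?_ v5
  have hn : (0 : ℝ) ≤ n := Nat.cast_nonneg n
  calc (θ / i0) ^ (2 * a) * (1 + (n : ℝ)) ^ γ ≤ (θ / i0) ^ (2 * a) * (1 + (n : ℝ)) ^ (2 * a) := by
        gcongr
        linarith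
    _ = (θ / i0 * (1 + (n : ℝ))) ^ (2 * a) := by
        rw [Real.mul_rpow (by positivity) (by positivity)]
    _ ≤ (((MM n : ℝ) + i0) / i0) ^ (2 * a) := by
        apply Real.rpow_le_rpow (by positivity) _ (by linarith)
        rw [div_mul_eq_mul_div]
        gcongr
        have := hMge n
        linarith

end Pool.Agent.Helper57.KE
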