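import Pool.Agent.Helper57.KE.Up
import Pool.Agent.Helper57.KE.Lo
import Pool.Agent.Helper63.KE.M_PT
import Pool.Agent.Helper99.KE.M_DER
import Pool.Agent.Helper45.KE.M_LB
import Pool.Agent.Helper94.KE.M_GRO
import Pool.Agent.Helper10.KE.M_ADJ
import Pool.Agent.Helper71.KE.M_CMB
import Pool.Agent.Helper73.KE.M_SCH
import Pool.Agent.Helper31.KE.M_POL
import Pool.Agent.Helper80.KE.M_ONE
import Pool.Agent.Helper75.KE.M_VPR
import Pool.Agent.Helper51.KE.M_BIG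
import Pool.Agent.Helper25.KE.M_SML
import Pool.Agent.Helper56.KE.M_CRU

/-!
# Project KE: the exact exponent, final assembly
-/

set_option autoImplicit false

namespace Pool.Agent.Helper57.KE

open Pool.Agent.Helper65.RG

universe u

lemma pp_eq {c : ℝ} (hc : 1 < c) : pp c = (c - √(c ^ 2 - 1)) ^ 2 := by
  have hc0 : 0 < c := by linarith
  have h1 : 0 < c ^ 2 - 1 := by nlinarith
  have h2 : ss c = √(c ^ 2 - 1) / c := by
    unfold ss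
    rw [Real.sqrt_eq_iff_mul_self_eq _ (by positivity)]
    · rw [div_mul_div_comm, Real.mul_self_sqrt h1.le]
      field_simp
    · have : 1 / c ^ 2 ≤ 1 := by
        rw [div_le_one (by positivity)]
        nlinarith
      linarith
  unfold pp
  rw [h2]
  have h3 : √(c ^ 2 - 1) * √(c ^ 2 - 1) = c ^ 2 - 1 := Real.mul_self_sqrt h1.le
  have h4 : 0 ≤ √(c ^ 2 - 1) := Real.sqrt_nonneg _
  have h5 : (1 - √(c ^ 2 - 1) / c) / (1 + √(c ^ 2 - 1) / c) =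
      (c - √(c ^ 2 - 1)) / (c + √(c ^ 2 - 1)) := by
    field_simp
  rw [h5, div_eq_iff (by positivity)]
  have h6 : (c - √(c ^ 2 - 1)) * (c + √(c ^ 2 - 1)) = 1 := by
    have h7 : (c - √(c ^ 2 - 1)) * (c + √(c ^ 2 - 1)) = c ^ 2 - √(c ^ 2 - 1) * √(c ^ 2 - 1) := by
      ring
    rw [h7, h3]
    ring
  calc c - √(c ^ 2 - 1) = (c - √(c ^ 2 - 1)) * 1 := by ring
    _ = (c - √(c ^ 2 - 1)) * ((c - √(c ^ 2 - 1)) * (c + √(c ^ 2 - 1))) := by rw [h6]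
    _ = _ := by ring

/-- the upper half -/
theorem upperE {c γ : ℝ} (hc : 1 < c) (hγ : 1 - (c - √(c ^ 2 - 1)) ^ 2 < γ) :
    ∃ M : ℝ, ∀ (H : Type u) [NormedAddCommGroup H] [InnerProductSpace ℂ H] [CompleteSpace H]
      (T : H →L[ℂ] H), spectrum ℂ T ⊆ Metric.closedBall 0 1 →
      (∀ z : ℂ, 1 < ‖z‖ → ‖z‖ ≤ 2 → ‖resolvent T z‖ ≤ c / (‖z‖ - 1)) →
      ∀ n : ℕ, ‖T ^ n‖ ≤ M * (1 + (n : ℝ)) ^ γ := by
  rw [← pp_eq hc] at hγ
  exact upper_exact.{u} Helper63.KE.hPT Helper99.KE.hDER Helper45.KE.hLB Helper94.KE.hGRO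
    Helper10.KE.hADJ Helper71.KE.hCMB hc hγ

/-- the lower half -/
theorem lowerE {c γ : ℝ} (hc : 1 < c) (hγ : γ < 1 - (c - √(c ^ 2 - 1)) ^ 2) :
    ∃ T : HS.{u} →L[ℂ] HS.{u}, spectrum ℂ T ⊆ Metric.closedBall 0 1 ∧
      (∀ z : ℂ, 1 < ‖z‖ → ‖z‖ ≤ 2 → ‖resolvent T z‖ ≤ c / (‖z‖ - 1)) ∧
      ∃ m : ℝ, 0 < m ∧ ∀ n : ℕ, m * (1 + (n : ℝ)) ^ γ ≤ ‖T ^ n‖ := by
  rw [← pp_eq hc] at hγ
  exact lower_exact.{u} Helper73.KE.hSCH Helper31.KE.hPOL Helper80.KE.hONE Helper75.KE.hVPR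
    Helper51.KE.hBIG Helper25.KE.hSML Helper56.KE.hCRU hc hγ

end Pool.Agent.Helper57.KE
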