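import Pool.Agent.Helper57.KE.Fin

/-!
# Project KE: the case `c = 1` included
-/

set_option autoImplicit false

namespace Pool.Agent.Helper57.KE

open Pool.Agent.Helper65.RG Pool.Agent.Helper57.KR

universe u

/-- the upper half for `c ≥ 1` -/
theorem upperE1 {c γ : ℝ} (hc : 1 ≤ c) (hγ : 1 - (c - √(c ^ 2 - 1)) ^ 2 < γ) :
    ∃ M : ℝ, ∀ (H : Type u) [NormedAddCommGroup H] [InnerProductSpace ℂ H] [CompleteSpace H]
      (T : H →L[ℂ] H), spectrum ℂ T ⊆ Metric.closedBall 0 1 →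
      (∀ z : ℂ, 1 < ‖z‖ → ‖z‖ ≤ 2 → ‖resolvent T z‖ ≤ c / (‖z‖ - 1)) →
      ∀ n : ℕ, ‖T ^ n‖ ≤ M * (1 + (n : ℝ)) ^ γ := by
  rcases hc.lt_or_eq with h1 | h1
  · exact upperE.{u} h1 hγ
  · subst h1
    have hf : Continuous (fun x : ℝ => 1 - (x - √(x ^ 2 - 1)) ^ 2) := by fun_prop
    have h2 : ∀ᶠ x in nhdsWithin (1 : ℝ) (Set.Ioi 1), 1 - (x - √(x ^ 2 - 1)) ^ 2 < γ :=
      (hf.continuousAt.eventually (gt_mem_nhds hγ)).filter_mono nhdsWithin_le_nhds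
    have h3 : ∀ᶠ x in nhdsWithin (1 : ℝ) (Set.Ioi 1), x ∈ Set.Ioi (1 : ℝ) := self_mem_nhdsWithin
    obtain ⟨c', hc1, hc2⟩ := (h2.and h3).exists
    have hc2' : 1 < c' := hc2
    obtain ⟨M, hM⟩ := upperE.{u} hc2' hc1
    refine ⟨M, ?_⟩
    intro H _ _ _ T hs hT n
    refine hM H T hs (fun z hz1 hz2 => (hT z hz1 hz2).trans ?_) n
    have h4 : 0 < ‖z‖ - 1 := by linarith
    gcongr

/-- the lower half for `c ≥ 1` -/
theorem lowerE1 {c γ : ℝ} (hc : 1 ≤ c) (hγ : γ < 1 - (c - √(c ^ 2 - 1)) ^ 2) :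
    ∃ T : HS.{u} →L[ℂ] HS.{u}, spectrum ℂ T ⊆ Metric.closedBall 0 1 ∧
      (∀ z : ℂ, 1 < ‖z‖ → ‖z‖ ≤ 2 → ‖resolvent T z‖ ≤ c / (‖z‖ - 1)) ∧
      ∃ m : ℝ, 0 < m ∧ ∀ n : ℕ, m * (1 + (n : ℝ)) ^ γ ≤ ‖T ^ n‖ := by
  rcases hc.lt_or_eq with h1 | h1
  · exact lowerE.{u} h1 hγ
  · subst h1
    obtain ⟨T, h1, h2, h3⟩ := exists_operatorg.{u} (W := fun _ _ => 1) (fun _ _ => one_pos)
      (C := 1) zero_le_one (fun δ hδ _ N => by
        have := kb1 hδ N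
        simpa using this)
    refine ⟨T, h1, h2, 1, one_pos, fun n => ?_⟩
    have hγ0 : γ < 0 := by
      have e : (1 : ℝ) - (1 - √(1 ^ 2 - 1)) ^ 2 = 0 := by norm_num
      linarith
    refine le_trans ?_ (h3 n)
    rw [one_mul, div_one]
    apply Real.rpow_le_one_of_one_le_of_nonpos
    · have : (0 : ℝ) ≤ n := Nat.cast_nonneg n
      linarith
    · exact hγ0.le

end Pool.Agent.Helper57.KE
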