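import Pool.Agent.Helper57.KE.Up2

/-!
# The endpoint: assembly of the lower half
-/

set_option autoImplicit false

open scoped BigOperators
open Finset

namespace Pool.Agent.Helper57.KE

open Pool.Agent.Helper65.RG Pool.Agent.Helper57.KR

universe u

private lemma aux_t {t : ℝ} (h0 : 0 < t) (h1 : t ≤ 1 / 2) : 2 * t + t ^ 2 ≤ 3 * t := by
  nlinarith

private lemma aux_θ {θ B' t : ℝ} (hθ0 : 0 < θ) (hB : 4 ≤ B') (ht0 : 0 < t) (ht1 : t ≤ 1 / 2)
    (h : B' * θ ≤ t ^ 2) : θ ≤ 1 / 16 := by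
  nlinarith

private lemma aux_M {θ M N : ℝ} (hθ1 : θ ≤ 1 / 16) (hN : 1 ≤ N)
    (hM : M ≤ θ * (N + 1)) : 8 * M ≤ N := by
  nlinarith

private lemma aux_i {M N i0 : ℝ} (hi : 0 ≤ i0) (hM : M ≤ N) (hN : 0 ≤ N) :
    M + i0 ≤ (1 + i0) * (N + 1) := by
  nlinarith

private lemma aux_u {u : ℝ} (hu0 : 0 < u) (hu1 : u ≤ 1 / 4) : 1 / (1 - u) ^ 2 ≤ 1 + 4 * u := by
  have h1u : 0 < 1 - u := by linarith
  rw [div_le_iff₀ (by positivity)]
  have h2 : 0 ≤ u * (2 - 7 * u + 4 * u ^ 2) := by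
    apply mul_nonneg hu0.le
    nlinarith
  nlinarith

private lemma aux_c {c δ K n1 s u : ℝ} (hc0 : 0 < c) (hδ : 0 < δ) (hn1 : 0 < n1) (hs : 0 < 1 - s)
    (hu : u = K / (c * (δ * n1))) :
    δ ^ 2 / c ^ 2 * (1 + 4 * u) =
      δ ^ 2 / c ^ 2 + (1 - s) * (8 * K / (c ^ 3 * (1 - s)) / n1) * δ / 2 := by
  rw [hu]
  field_simp
  ring

/-- the lower half at the endpoint -/
theorem lower_end (hSCH : StSCH) (hVPR : StVPR) (hBIG : StBIG) (hSML : StSML) (hCRU : StCRU)
    (hPOC : StPOC) (hONC : StONC) (hVPC : StVPC) {c : ℝ} (hc : 1 < c) :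
    ∃ T : HS.{u} →L[ℂ] HS.{u}, spectrum ℂ T ⊆ Metric.closedBall 0 1 ∧
      (∀ z : ℂ, 1 < ‖z‖ → ‖z‖ ≤ 2 → ‖resolvent T z‖ ≤ c / (‖z‖ - 1)) ∧
      ∃ m : ℝ, 0 < m ∧ ∀ n : ℕ, m * (1 + (n : ℝ)) ^ (1 - pp c) ≤ ‖T ^ n‖ := by
  have hc0 : 0 < c := by linarith
  have hs0 := ss_pos hc
  have hs1 := ss_lt_one hc
  have hp0 := pp_pos hc
  have hp1 := pp_lt_one hc
  obtain ⟨δ1, i1, hδ1, hδ11, hi1, hone⟩ := hONC hSCH hPOC c hc
  set p : ℝ := pp c with hp
  set s : ℝ := ss c with hs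
  have h1s : 0 < 1 - s := by linarith
  have h1p : 0 < 1 - p := by linarith
  obtain ⟨i0, hi0⟩ : ∃ i0 : ℕ, max (i1 : ℝ) (1 / (δ1 * (c - 1))) ≤ i0 := exists_nat_ge _
  have hi01 : i1 ≤ i0 := by
    have := (le_max_left (i1 : ℝ) (1 / (δ1 * (c - 1)))).trans hi0
    exact_mod_cast this
  have hi02 : 1 / ((i0 : ℝ) * δ1) ≤ c - 1 := by
    have h1 := (le_max_right (i1 : ℝ) (1 / (δ1 * (c - 1)))).trans hi0
    have hi0p : (0 : ℝ) < i0 := by
      have : 1 ≤ i0 := by omega
      exact_mod_cast this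
    have hcc : 0 < c - 1 := by linarith
    rw [div_le_iff₀ (by positivity)] at h1 ⊢
    linarith
  have hi0ge : 1 ≤ i0 := by omega
  have hi0r : (1 : ℝ) ≤ i0 := by exact_mod_cast hi0ge
  set B : ℝ := 2 / p * (1 + i0) + 1 with hB
  have hB0 : 0 ≤ B := by positivity
  set B' : ℝ := 4 / p with hB'
  have hB'4 : 4 ≤ B' := by
    rw [hB', le_div_iff₀ hp0]
    linarith
  set K : ℝ := 4 + 128 * B with hK
  have hK0 : 0 < K := by positivity
  set κ : ℝ := 8 * K / (c ^ 3 * (1 - s)) with hκ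
  have hκ0 : 0 < κ := by positivity
  set L0 : ℝ := 17 + 4 * K + 4 * κ / (s * (1 - p)) + 2 * κ * i0 / (1 - p) with hL0
  have hx1 : 0 < 4 * κ / (s * (1 - p)) := by positivity
  have hx2 : 0 < 2 * κ * i0 / (1 - p) := by positivity
  have hL17 : 17 ≤ L0 := by linarith
  have hL4K : 4 * K ≤ L0 := by linarith
  have hLs : 4 * κ / (s * (1 - p)) ≤ L0 := by linarith
  have hLi : 2 * κ * i0 / (1 - p) ≤ L0 := by linarith
  have hLpos : 0 < L0 := by linarith
  set t : ℝ := min (1 / 2) ((c - 1) / (3 * L0)) with ht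
  have ht0 : 0 < t := lt_min (by norm_num) (div_pos (by linarith) (by positivity))
  have ht1 : t ≤ 1 / 2 := min_le_left _ _
  have ht2 : (2 * t + t ^ 2) * L0 ≤ c - 1 := by
    have h1 : t ≤ (c - 1) / (3 * L0) := min_le_right _ _
    rw [le_div_iff₀ (by positivity)] at h1
    have h2 : 2 * t + t ^ 2 ≤ 3 * t := aux_t ht0 ht1
    calc (2 * t + t ^ 2) * L0 ≤ 3 * t * L0 := by gcongr
      _ = t * (3 * L0) := by ring
      _ ≤ c - 1 := h1
  set θ : ℝ := min (t ^ 2 / B') ((1 - p) / (2 * κ)) with hθ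
  have hθ0 : 0 < θ := lt_min (by positivity) (by positivity)
  have hθB : θ ≤ t ^ 2 / B' := min_le_left _ _
  have hθκ : κ * θ ≤ (1 - p) / 2 := by
    have h1 : θ ≤ (1 - p) / (2 * κ) := min_le_right _ _
    rw [le_div_iff₀ (by positivity)] at h1
    linarith
  have hBθ : B' * θ ≤ t ^ 2 := by
    rw [le_div_iff₀ (by linarith)] at hθB
    linarith
  have hθ1 : θ ≤ 1 / 16 := aux_θ hθ0 hB'4 ht0 ht1 hBθ
  -- the plateau and the correction
  set MM : ℕ → ℕ := fun N => ⌊θ * ((N : ℝ) + 1)⌋₊ with hMM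
  have hMle : ∀ N : ℕ, (MM N : ℝ) ≤ θ * ((N : ℝ) + 1) := fun N => Nat.floor_le (by positivity)
  have hMge : ∀ N : ℕ, θ * ((N : ℝ) + 1) ≤ (MM N : ℝ) + 1 := fun N => (Nat.lt_floor_add_one _).le
  have hM8 : ∀ N : ℕ, 8 * MM N ≤ N := by
    intro N
    rcases Nat.eq_zero_or_pos N with h | h
    · subst h
      have h1 := hMle 0
      have h2 : (MM 0 : ℝ) < 1 := by
        refine h1.trans_lt ?_
        push_cast
        linarith
      have h3 : MM 0 < 1 := by exact_mod_cast h2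
      omega
    · have h1 := hMle N
      have h2 : (1 : ℝ) ≤ N := by exact_mod_cast h
      have h3 : (8 * MM N : ℝ) ≤ N := aux_M hθ1 h2 h1
      exact_mod_cast h3
  have hMN : ∀ N : ℕ, MM N ≤ N := fun N => by have := hM8 N; omega
  set eN : ℕ → ℝ := fun N => if L0 ≤ (N : ℝ) + 1 then κ / ((N : ℝ) + 1) else 0 with heN
  have he0 : ∀ N, 0 ≤ eN N := by
    intro N
    simp only [heN]
    split_ifs <;> positivity
  have heM : ∀ N, eN N * ((MM N : ℝ) + i0) ≤ 1 - p := by
    intro N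
    simp only [heN]
    split_ifs with h
    · have hn : (0 : ℝ) < (N : ℝ) + 1 := by positivity
      have h1 := hMle N
      have h2 : 2 * κ * i0 ≤ (1 - p) * ((N : ℝ) + 1) := by
        have h3 := hLi.trans h
        rw [div_le_iff₀ h1p] at h3
        linarith
      rw [div_mul_eq_mul_div, div_le_iff₀ hn]
      have h3 : κ * (MM N : ℝ) ≤ κ * (θ * ((N : ℝ) + 1)) := by gcongr
      have h4 : κ * θ * ((N : ℝ) + 1) ≤ (1 - p) / 2 * ((N : ℝ) + 1) := by gcongr
      linarith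
    · rw [zero_mul]
      exact h1p.le
  set W : ℕ → ℕ → ℝ := fun N i => pw p (eN N) i0 (MM N) i / pw p (eN N) i0 (MM N) (N - i) with hW
  have hWpos : ∀ N i, 0 < W N i := by
    intro N i
    obtain ⟨h1, -⟩ := hVPC hVPR p (eN N) i0 (MM N) hp0 hp1 hi0ge (he0 N) (heM N)
    exact div_pos (h1 _) (h1 _)
  have hKB : ∀ δ : ℝ, 0 < δ → δ ≤ 1 → ∀ N : ℕ,
      KB (fun i j : Fin (N + 1) => k1 δ i j * (W N i / W N j)) (c * δ⁻¹) := by
    intro δ hδ hδ1' N
    obtain ⟨v1, v2, v3, v4, v5, v6, v7, v8⟩ :=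
      hVPC hVPR p (eN N) i0 (MM N) hp0 hp1 hi0ge (he0 N) (heM N)
    have hup : ∀ i, pw p (eN N) i0 (MM N) i ≤ pw p (eN N) i0 (MM N) (MM N) := by
      intro i
      rcases le_total i (MM N) with h | h
      · exact v3 _ _ h
      · exact (v4 i h).le
    have hδi : 0 < δ⁻¹ := by positivity
    by_cases hδc : δ1 ≤ δ
    · -- crude
      have h := hCRU (pw p (eN N) i0 (MM N)) δ i0 N v1 hi0ge hδ hδ1' v6
      refine h.mono (fun i j => le_rfl) ?_
      gcongr
      have h2 : 1 / ((i0 : ℝ) * δ) ≤ 1 / ((i0 : ℝ) * δ1) := by gcongr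
      linarith
    · push Not at hδc
      by_cases hL : L0 ≤ δ * ((N : ℝ) + 1)
      · -- big
        have hNL : L0 ≤ (N : ℝ) + 1 := by
          have : δ * ((N : ℝ) + 1) ≤ 1 * ((N : ℝ) + 1) := by gcongr
          linarith
        have hN16 : 16 ≤ N := by
          have h2 : (16 : ℝ) ≤ N := by linarith
          exact_mod_cast h2
        have hn1 : (0 : ℝ) < (N : ℝ) + 1 := by positivity
        have hee : eN N = κ / ((N : ℝ) + 1) := by
          simp only [heN]
          rw [if_pos hNL]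
        have h7 : pw p (eN N) i0 (MM N) (MM N) ^ 2 *
            ∑ j ∈ range (N + 1), (pw p (eN N) i0 (MM N) j ^ 2)⁻¹ ≤ B * ((N : ℝ) + 1) := by
          have hsp : ∑ j ∈ range (N + 1), (pw p (eN N) i0 (MM N) j ^ 2)⁻¹ =
              ∑ j ∈ range (MM N), (pw p (eN N) i0 (MM N) j ^ 2)⁻¹ +
              ∑ j ∈ Ico (MM N) (N + 1), (pw p (eN N) i0 (MM N) j ^ 2)⁻¹ := by
            rw [range_eq_Ico, range_eq_Ico]
            exact (sum_Ico_consecutive _ (Nat.zero_le _) (by have := hMN N; omega)).symm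
          have hco : ∑ j ∈ Ico (MM N) (N + 1), (pw p (eN N) i0 (MM N) j ^ 2)⁻¹ =
              ((N + 1 - MM N : ℕ) : ℝ) * (pw p (eN N) i0 (MM N) (MM N) ^ 2)⁻¹ := by
            rw [sum_congr rfl (g := fun _ => (pw p (eN N) i0 (MM N) (MM N) ^ 2)⁻¹)]
            · rw [sum_const, Nat.card_Ico, nsmul_eq_mul]
            · intro j hj
              rw [v4 j (mem_Ico.1 hj).1]
          rw [hsp, hco, mul_add]
          have hΦ := v1 (MM N)
          have e1 : pw p (eN N) i0 (MM N) (MM N) ^ 2 *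
              (((N + 1 - MM N : ℕ) : ℝ) * (pw p (eN N) i0 (MM N) (MM N) ^ 2)⁻¹) =
              ((N + 1 - MM N : ℕ) : ℝ) := by
            field_simp
          rw [e1]
          have e2 : ((N + 1 - MM N : ℕ) : ℝ) ≤ (N : ℝ) + 1 := by
            have : N + 1 - MM N ≤ N + 1 := Nat.sub_le _ _
            exact_mod_cast this
          have e3 : ((MM N : ℝ) + i0) ≤ (1 + i0) * ((N : ℝ) + 1) := by
            have h1 : (MM N : ℝ) ≤ N := by exact_mod_cast hMN N
            exact aux_i (by positivity) h1 (Nat.cast_nonneg N)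
          have e4 : 2 / p * ((MM N : ℝ) + i0) ≤ 2 / p * ((1 + i0) * ((N : ℝ) + 1)) := by gcongr
          rw [hB]
          linarith
        set n1 : ℝ := (N : ℝ) + 1 with hn1d
        set u : ℝ := K / (c * (δ * n1)) with hu
        have hu0 : 0 < u := by positivity
        have hu1 : u ≤ 1 / 4 := by
          rw [hu, div_le_iff₀ (by positivity)]
          have h1 : 1 * (δ * n1) ≤ c * (δ * n1) := by gcongr
          linarith
        have hcu : c - K / (δ * n1) = c * (1 - u) := by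
          rw [hu]
          field_simp
        set c' : ℝ := c - K / (δ * n1) with hc'
        have h1u : 0 < 1 - u := by linarith
        have hc'0 : 0 < c' := by
          rw [hcu]
          positivity
        have hcc : δ ^ 2 / c' ^ 2 ≤ δ ^ 2 / c ^ 2 + (1 - s) * eN N * δ / 2 := by
          have h1 : 1 / (1 - u) ^ 2 ≤ 1 + 4 * u := aux_u hu0 hu1
          have h2 : δ ^ 2 / c' ^ 2 = δ ^ 2 / c ^ 2 * (1 / (1 - u) ^ 2) := by
            rw [hcu]
            field_simp
          have h3 : δ ^ 2 / c ^ 2 * (1 + 4 * u) = δ ^ 2 / c ^ 2 + (1 - s) * eN N * δ / 2 := by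
            rw [hee, hκ]
            exact aux_c hc0 hδ hn1 h1s hu
          rw [h2, ← h3]
          gcongr
        have h4e : 4 * eN N ≤ s * (1 - p) * δ := by
          rw [hee, ← mul_div_assoc, div_le_iff₀ hn1]
          have h1 := hLs.trans hL
          rw [div_le_iff₀ (by positivity)] at h1
          linarith
        have he1 : 0 < eN N := by
          rw [hee]
          positivity
        have h := hBIG (pw p (eN N) i0 (MM N)) (pw p (eN N) i0 (MM N) (MM N)) B c' δ (MM N) N v1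
          hup v4 (hM8 N) hN16 hδ hδ1' hc'0.le hB0
          (hone i0 hi01 (MM N) N δ (eN N) c' hδ hδc.le he1 h4e (heM N) hc'0 hcc) h7
        refine h.mono (fun i j => le_rfl) ?_
        have e5 : c' + (4 + 128 * B) / (δ * ((N : ℝ) + 1)) = c := by
          rw [hc', hK]
          ring
        rw [e5]
      · -- small
        push Not at hL
        have h := hSML (pw p (eN N) i0 (MM N)) (pw p (eN N) i0 (MM N) (MM N)) (B' * MM N) δ (MM N)
          N v1 hup v4 (hMN N) hδ hδ1' v8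
        refine h.mono (fun i j => le_rfl) ?_
        set n1 : ℝ := (N : ℝ) + 1 with hn1
        have hn0 : 0 < n1 := by positivity
        have hS : B' * (MM N : ℝ) ≤ t ^ 2 * n1 := by
          calc B' * (MM N : ℝ) ≤ B' * (θ * n1) := by
                gcongr
                exact hMle N
            _ = B' * θ * n1 := by ring
            _ ≤ t ^ 2 * n1 := by gcongr
        have hsq : √(n1 * (B' * (MM N : ℝ))) ≤ t * n1 := by
          apply Real.sqrt_le_iff.2
          constructor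
          · positivity
          · calc n1 * (B' * (MM N : ℝ)) ≤ n1 * (t ^ 2 * n1) := by gcongr
              _ = (t * n1) ^ 2 := by ring
        have h3 : (2 * t + t ^ 2) * n1 ≤ (c - 1) * δ⁻¹ := by
          have h4 : (2 * t + t ^ 2) * (δ * n1) ≤ c - 1 := by
            refine le_trans ?_ ht2
            gcongr
          rw [← div_eq_mul_inv, le_div_iff₀ hδ]
          linarith
        linarith
  obtain ⟨T, h1, h2, h3⟩ := exists_operatorg.{u} hWpos (C := c) hc0.le hKB
  refine ⟨T, h1, h2, p * (θ / i0) ^ (1 - p), by positivity, fun n => ?_⟩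
  refine le_trans ?_ (h3 n)
  obtain ⟨v1, v2, v3, v4, v5, v6, v7, v8⟩ :=
    hVPC hVPR p (eN n) i0 (MM n) hp0 hp1 hi0ge (he0 n) (heM n)
  simp only [hW, Nat.sub_self, Nat.sub_zero]
  rw [v2, div_one, one_div, div_inv_eq_mul, ← sq, v4 n (hMN n)]
  refine le_trans ?_ v5
  have hn : (0 : ℝ) ≤ n := Nat.cast_nonneg n
  calc p * (θ / i0) ^ (1 - p) * (1 + (n : ℝ)) ^ (1 - p)
      = p * (θ / i0 * (1 + (n : ℝ))) ^ (1 - p) := by
        rw [Real.mul_rpow (by positivity) (by positivity)]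
        ring
    _ ≤ p * (((MM n : ℝ) + i0) / i0) ^ (1 - p) := by
        apply mul_le_mul_of_nonneg_left _ hp0.le
        apply Real.rpow_le_rpow (by positivity) _ h1p.le
        rw [div_mul_eq_mul_div]
        gcongr
        have := hMge n
        linarith

end Pool.Agent.Helper57.KE
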