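import Pool.Agent.Helper57.KE.Fin
import Pool.Agent.Helper57.KE.Lo2
import Pool.Agent.Helper99.KE.M_LBZ
import Pool.Agent.Helper74.KE.M_ABE
import Pool.Agent.Helper37.KE.M_GRZ
import Pool.Agent.Helper71.KE.M_POC
import Pool.Agent.Helper36.KE.M_ONC
import Pool.Agent.Helper41.KE.M_VPC

/-!
# Project KF: the exact order, final assembly
-/

set_option autoImplicit false

namespace Pool.Agent.Helper57.KE

open Pool.Agent.Helper65.RG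

universe u

/-- the upper half -/
theorem upperF {c : ℝ} (hc : 1 < c) :
    ∃ M : ℝ, ∀ (H : Type u) [NormedAddCommGroup H] [InnerProductSpace ℂ H] [CompleteSpace H]
      (T : H →L[ℂ] H), spectrum ℂ T ⊆ Metric.closedBall 0 1 →
      (∀ z : ℂ, 1 < ‖z‖ → ‖z‖ ≤ 2 → ‖resolvent T z‖ ≤ c / (‖z‖ - 1)) →
      ∀ n : ℕ, ‖T ^ n‖ ≤ M * (1 + (n : ℝ)) ^ (1 - (c - √(c ^ 2 - 1)) ^ 2) := by
  rw [← pp_eq hc]
  exact upper_end.{u} Helper63.KE.hPT Helper99.KE.hDER Helper45.KE.hLB Helper94.KE.hGRO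
    Helper10.KE.hADJ Helper71.KE.hCMB Helper99.KE.hLBZ Helper74.KE.hABE Helper37.KE.hGRZ hc

/-- the lower half -/
theorem lowerF {c : ℝ} (hc : 1 < c) :
    ∃ T : HS.{u} →L[ℂ] HS.{u}, spectrum ℂ T ⊆ Metric.closedBall 0 1 ∧
      (∀ z : ℂ, 1 < ‖z‖ → ‖z‖ ≤ 2 → ‖resolvent T z‖ ≤ c / (‖z‖ - 1)) ∧
      ∃ m : ℝ, 0 < m ∧ ∀ n : ℕ, m * (1 + (n : ℝ)) ^ (1 - (c - √(c ^ 2 - 1)) ^ 2) ≤ ‖T ^ n‖ := by
  rw [← pp_eq hc]
  exact lower_end.{u} Helper73.KE.hSCH Helper75.KE.hVPR Helper51.KE.hBIG Helper25.KE.hSML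
    Helper56.KE.hCRU Helper71.KE.hPOC Helper36.KE.hONC Helper41.KE.hVPC hc

end Pool.Agent.Helper57.KE
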