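import Pool.Agent.Helper57.KR.K1
import Pool.Agent.Helper57.KR.K6

/-!
# Project KE (MP_45ac3c_an): the exact exponent `E(c) = 1 - (c - √(c² - 1))²`

`s = √(1 - 1/c²)`, `E = 2 s / (1 + s)`, `p = (1 - s)/(1 + s) = 1 - E`.
Everything is real analysis of finite sums; `KB K C` is `Pool.Agent.Helper65.RG.KB`
(nonnegative bilinear form with kernel `K` bounded by `C`), `k1 δ i j = (1+δ)^(-(i-j+1))` for `j ≤ i`,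
else `0` (`Pool.Agent.Helper65.RG.k1`). Useful: `KB.mono, KB.add, KB.smul, KB.rankOne, KB.schur,
KB.transpose, KB.reindex, kb1, k1_nonneg, decay1, sum_row, sum_col, geom_sum_le`
(Helper65.RG2, RG3, RG4, RG5), `kb_hs, arith_geom, sum_fin_le` (Helper57.KR.Ker),
`kb_block` (Helper57.KR.K6), `sum_fin_ge, sum_fin_lt` (Helper57.KR.K2).
-/

set_option autoImplicit false

open scoped BigOperators
open Finset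

namespace Pool.Agent.Helper57.KE

open Pool.Agent.Helper65.RG Pool.Agent.Helper57.KR

/-- `s = √(1 - 1/c²)` -/
noncomputable def ss (c : ℝ) : ℝ := √(1 - 1 / c ^ 2)

/-- `p = (1 - s)/(1 + s)` -/
noncomputable def pp (c : ℝ) : ℝ := (1 - ss c) / (1 + ss c)

/-! ## Upper bound -/

/-- the shifted sequence, `0` at `0` -/
def sh (g : ℕ → ℝ) (i : ℕ) : ℝ := if i = 0 then 0 else g (i - 1)

/-- the quadratic inequality for `v i = ‖T^i x‖²` -/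
def QF (c : ℝ) (v : ℕ → ℝ) : Prop :=
  (∀ i, 0 ≤ v i) ∧ ∀ δ : ℝ, 0 < δ → δ ≤ 1 → ∀ (g : ℕ → ℝ) (m : ℕ),
    δ ^ 2 * ∑ i ∈ range m, v i * g i ^ 2 ≤
      c ^ 2 * (∑ i ∈ range m, v i * ((1 + δ) * g i - sh g i) ^ 2 + v m * (sh g m) ^ 2)

/-- the test function: `g i = (i+1)^p e^(-σ (i+1))` -/
noncomputable def gg (p σ : ℝ) (i : ℕ) : ℝ := ((i : ℝ) + 1) ^ p * Real.exp (-(σ * ((i : ℝ) + 1)))

/-- PT (pointwise inequality). Write `k = i+1`, `y = σ k`, `g = k^p e^(-y)`, `D = g - sh g`,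
`p = (1-s)/(1+s)` (so `0 < p < 1`, `2 s p^2/(1-s) = p (1-p)`). `D ≤ g * d`, `d = D0 + e`,
`D0 = p/k - σ`, `e = (1-p)/k^2 + σ (p/k + (1-p)/k^2)`, `0 ≤ e ≤ (1+y)/k^2`: indeed
`sh g/g = (1-1/k)^p e^σ ≥ (1 - p/k - (1-p)/k^2)(1+σ)` because `(1-x)^p ≥ (1-x)(1+(1-p)x)`
(`(1-x)^(-(1-p)) = exp (-(1-p) log (1-x)) ≥ 1+(1-p)x`; for `i = 0` both sides are trivial, `x = 1`).
Also `D ≥ g (1 - e^σ) ≥ - g (σ+σ^2) ≥ - g σ/s` (`σ ≤ (1-s)/s`; `Real.abs_exp_sub_one_sub_id_le`).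
So `σ^2 g^2 + 2 (σ/s) g D + D^2 ≤ g^2 (σ^2 + 2 (σ/s) d + d^2)` (difference of the two sides is
`(g d - D)(2 g σ/s + D + g d) ≥ 0`). Finally
`σ^2 + 2 (σ/s) D0 + D0^2 = p^2/k^2 + 2 p σ (1-s)/(s k) - 2 σ^2 (1-s)/s` and
`k^2 (2 (σ/s) e + 2 D0 e + e^2) ≤ (1+y)(3 σ/s + 3/k)`. Multiply by `2 s/(1-s)`. -/
def StPT : Prop :=
  ∀ (s σ : ℝ) (i : ℕ), 0 < s → s < 1 → 0 < σ → σ ≤ s → σ ≤ (1 - s) / s →
    2 * s / (1 - s) * (σ ^ 2 * gg ((1 - s) / (1 + s)) σ i ^ 2 +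
        2 * (σ / s) * gg ((1 - s) / (1 + s)) σ i *
          (gg ((1 - s) / (1 + s)) σ i - sh (gg ((1 - s) / (1 + s)) σ) i) +
        (gg ((1 - s) / (1 + s)) σ i - sh (gg ((1 - s) / (1 + s)) σ) i) ^ 2) ≤
      ((i : ℝ) + 1) ^ (2 * ((1 - s) / (1 + s)) - 2) * Real.exp (-(2 * (σ * ((i : ℝ) + 1)))) *
        ((1 - s) / (1 + s) * (1 - (1 - s) / (1 + s)) +
          4 * ((1 - s) / (1 + s)) * (σ * ((i : ℝ) + 1)) - 4 * (σ * ((i : ℝ) + 1)) ^ 2 +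
          6 * s / (1 - s) * (1 + σ * ((i : ℝ) + 1)) * (σ / s + 1 / ((i : ℝ) + 1)))

/-- the function `Ψ` -/
noncomputable def Psi (v : ℕ → ℝ) (p ω ω' : ℝ) (m : ℕ) (σ : ℝ) : ℝ :=
  σ ^ ω * ∑ i ∈ range m, v i * (((i : ℝ) + 1) ^ (2 * p - 2) *
    (2 * (σ * ((i : ℝ) + 1)) + ω') * Real.exp (-(2 * (σ * ((i : ℝ) + 1)))))

/-- its derivative -/
noncomputable def dPsi (v : ℕ → ℝ) (p ω ω' : ℝ) (m : ℕ) (σ : ℝ) : ℝ :=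
  σ ^ (ω - 1) * ∑ i ∈ range m, v i * (((i : ℝ) + 1) ^ (2 * p - 2) *
    Real.exp (-(2 * (σ * ((i : ℝ) + 1)))) *
    (ω * ω' + 2 * (ω + 1 - ω') * (σ * ((i : ℝ) + 1)) - 4 * (σ * ((i : ℝ) + 1)) ^ 2))

/-- DER: the derivative of `Psi` (finite sums: `HasDerivAt.fun_sum`; product rule, then the
coefficient of the term `i` is, with `y = σ (i+1)`,
`ω (2y+ω') + 2y - 2y (2y+ω') = ω ω' + 2 (ω+1-ω') y - 4 y^2`). -/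
def StDER : Prop :=
  ∀ (v : ℕ → ℝ) (p ω ω' : ℝ) (m : ℕ) (σ : ℝ), 0 < σ →
    HasDerivAt (Psi v p ω ω' m) (dPsi v p ω ω' m σ) σ

/-- LB: the lower bound for the derivative. QF with `δ = σ/s ≤ 1` and `g = gg p σ` gives, since
`1/c^2 = 1 - s^2` and `(1+δ) g - sh g = δ g + D`,
`∑ v i (σ^2 g^2 + 2 (σ/s) g D + D^2) + v m (sh g m)^2 ≥ 0` (divide by `c^2`; `s^2 δ^2 = σ^2`).
Multiply by `2s/(1-s)`, insert PT: `∑ v i k^(2p-2) e^(-2y) (p(1-p) + 4 p y - 4 y^2 +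
6s/(1-s) (1+y)(σ/s + 1/k)) ≥ - 2s/(1-s) v m (sh g m)^2`. Compare with `dPsi`: with `ω = p+η`,
`ω' = 1-p+η/2`: `ω ω' ≥ p(1-p) + η/2`, `2(ω+1-ω') = 4p+η`, so the bracket of `dPsi` minus the bracket
above is at least `(1+y)(η/2 - 6s/(1-s)(σ/s+1/k))` (`η/2 + η y ≥ (η/2)(1+y)`), which is `≥ 0` for
`σ ≤ σ0`, `k ≥ k0`, and at least `-(1+y) 6s/(1-s) (σ/s + 1)` always, and then
`k^(2p-2) e^(-2y) (1+y) ≤ 1`. -/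
def StLB : Prop :=
  StPT → ∀ c : ℝ, 1 < c → ∀ η : ℝ, 0 < η → ∃ (σ0 B : ℝ) (k0 : ℕ), 0 < σ0 ∧ 0 ≤ B ∧
    ∀ (v : ℕ → ℝ), QF c v → ∀ (m : ℕ) (σ : ℝ), 0 < σ → σ ≤ σ0 →
      -(σ ^ (pp c + η - 1) * (B * (∑ i ∈ range k0, v i + v m * (sh (gg (pp c) σ) m) ^ 2))) ≤
        dPsi v (pp c) (pp c + η) (1 - pp c + η / 2) m σ

/-- GRO: the growth of the sums, `1 + (1 - p) + η = 2 - p + η`. Fix `n ≥ 1`; let
`σ1 = σ0/n` (`≤ σ0`). By DER and LB the function `Psi + (B (V_{k0} + err)) σ^ω/ω` is monotone on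
`[σ1, σ0]` (`monotoneOn_of_deriv_nonneg` or the mean value inequality), where for `σ ≥ σ1`
`v m (sh g m)^2 ≤ A (m+1)^2 m^(2p) e^(-2 σ1 m) =: err m → 0` as `m → ∞`, so choose `m ≥ n` with
`err m ≤ A`. Hence `Psi σ1 ≤ Psi σ0 + B (V_{k0} + A) σ0^ω/ω ≤ C' A`: `Psi σ0 ≤ C'' A` uniformly in `m`
because `∑ (i+1)^2 (2σ0(i+1)+ω') e^(-2σ0(i+1))` converges (`summable_pow_mul_geometric_of_norm_lt_one`)
and `(i+1)^(2p-2) ≤ 1`. And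
`Psi σ1 ≥ σ1^ω ω' e^(-2σ0) n^(2p-2) V_n` (for `i < n`: `(i+1)^(2p-2) ≥ n^(2p-2)`, `σ1 (i+1) ≤ σ0`). So
`V_n ≤ C A n^(2-2p+ω) = C A n^(2-p+η)`. -/
def StGRO : Prop :=
  StDER → ∀ c : ℝ, 1 < c → ∀ η : ℝ, 0 < η →
    (∃ (σ0 B : ℝ) (k0 : ℕ), 0 < σ0 ∧ 0 ≤ B ∧
      ∀ (v : ℕ → ℝ), QF c v → ∀ (m : ℕ) (σ : ℝ), 0 < σ → σ ≤ σ0 →
        -(σ ^ (pp c + η - 1) * (B * (∑ i ∈ range k0, v i + v m * (sh (gg (pp c) σ) m) ^ 2))) ≤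
          dPsi v (pp c) (pp c + η) (1 - pp c + η / 2) m σ) →
    ∃ C : ℝ, 0 ≤ C ∧ ∀ (v : ℕ → ℝ), QF c v → ∀ A : ℝ, (∀ i : ℕ, v i ≤ A * ((i : ℝ) + 1) ^ 2) →
      ∀ n : ℕ, 1 ≤ n → ∑ i ∈ range n, v i ≤ C * A * (n : ℝ) ^ (2 - pp c + η)

universe u

/-- ADJ: the adjoint satisfies the same hypotheses, with the same constant. `spectrum` of `star T` is the
conjugate of the spectrum (`spectrum.map_star`), `resolvent (star T) z = star (resolvent T (conj z))`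
(`Ring.inverse_star` or `IsUnit.star`), `norm_star`; `star T = ContinuousLinearMap.adjoint T`
(`ContinuousLinearMap.star_eq_adjoint`). -/
def StADJ : Prop :=
  ∀ (H : Type u) [NormedAddCommGroup H] [InnerProductSpace ℂ H] [CompleteSpace H]
    (T : H →L[ℂ] H) (c : ℝ), spectrum ℂ T ⊆ Metric.closedBall 0 1 →
    (∀ z : ℂ, 1 < ‖z‖ → ‖z‖ ≤ 2 → ‖resolvent T z‖ ≤ c / (‖z‖ - 1)) →
    spectrum ℂ (star T) ⊆ Metric.closedBall 0 1 ∧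
    (∀ z : ℂ, 1 < ‖z‖ → ‖z‖ ≤ 2 → ‖resolvent (star T) z‖ ≤ c / (‖z‖ - 1))

/-- CMB: `(n+1) |⟪T^n x, y⟫| = ∑_{k ≤ n} |⟪T^k x, (star T)^(n-k) y⟫| ≤ √(∑ ‖T^k x‖²) √(∑ ‖(star T)^k y‖²)
≤ K (n+1)^γ' ‖x‖ ‖y‖`; take `y = T^n x` (or `ContinuousLinearMap.opNorm_le_bound` and
`norm_inner`-duality). -/
def StCMB : Prop :=
  ∀ (H : Type u) [NormedAddCommGroup H] [InnerProductSpace ℂ H] [CompleteSpace H]
    (T : H →L[ℂ] H) (K γ' : ℝ), 0 ≤ K →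
    (∀ (x : H) (n : ℕ), 1 ≤ n → ∑ i ∈ range n, ‖(T ^ i) x‖ ^ 2 ≤ K * (n : ℝ) ^ γ' * ‖x‖ ^ 2) →
    (∀ (x : H) (n : ℕ), 1 ≤ n →
      ∑ i ∈ range n, ‖((star T) ^ i) x‖ ^ 2 ≤ K * (n : ℝ) ^ γ' * ‖x‖ ^ 2) →
    ∀ n : ℕ, ‖T ^ n‖ ≤ K * (1 + (n : ℝ)) ^ (γ' - 1)

/-! ## Lower bound -/

/-- SCH: Schur test with two vectors (adapt the proof of `KB.schur`):
`K x y = (√(K r_i/p_j) x_j)(√(K p_j/r_i) y_i)`, Cauchy-Schwarz over the pairs. -/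
def StSCH : Prop :=
  ∀ (n : ℕ) (K : Fin n → Fin n → ℝ) (p r : Fin n → ℝ) (l : ℝ), 0 ≤ l → (∀ i j, 0 ≤ K i j) →
    (∀ i, 0 < p i) → (∀ i, 0 < r i) → (∀ i, ∑ j, K i j * p j ≤ l * r i) →
    (∀ j, ∑ i, K i j * r i ≤ l * p j) → KB K l

/-- POL: the polynomial inequality. Choose `θ < s` close to `s`, `k < 1 - 2a` close to `1 - 2a`, so that
`k θ > a (1 - θ)` (possible because `(1-2a) s > a (1-s)`, that is `a (1+s) < s`). With `w = 1/x`: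
`(x-1)/(x-1+k) ≤ 1 - k w - k(1-k) w^2` and `1/(1-θδ) ≤ 1 + θδ + θ^2δ^2 + 2θ^3δ^3` for `θδ ≤ 1/2`.
Then the left side minus `δ^2/c^2 = δ^2 (1 - s^2)` is at least
`(s^2-θ^2) δ^2 + k(1-2a-k) w^2 + 2 (kθ - a(1-θ)) w δ - C (δ+w)^3` (the terms of order 0 and 1
cancel), which is `≥ 0` for small `δ, w` since all three coefficients are positive. The last two
claims hold for `δ ≤ (1-θ)/θ`. -/
def StPOL : Prop :=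
  ∀ c a : ℝ, 1 < c → 0 < a → a < ss c / (1 + ss c) →
    ∃ (k θ δ1 : ℝ) (i1 : ℕ), 0 < k ∧ k ≤ 1 ∧ 0 < θ ∧ θ < 1 ∧ 0 < δ1 ∧ δ1 ≤ 1 ∧ 2 ≤ i1 ∧
      ∀ (x δ : ℝ), (i1 : ℝ) ≤ x → 0 < δ → δ ≤ δ1 →
        δ ^ 2 / c ^ 2 ≤ (1 + δ) ^ 2 - (1 + δ) * ((x - 1) / ((x - 1 + k) * (1 - θ * δ))) -
          (1 + 2 * a / x) * ((1 + δ) * ((1 + k / x) * (1 - θ * δ)) - 1) ∧
        1 ≤ (1 + δ) * (1 - θ * δ) ∧ 0 < 1 - θ * δ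

/-- the square of the one-sided weight, constant from `M` on -/
noncomputable def vv (a : ℝ) (i0 M j : ℕ) : ℝ :=
  ∏ l ∈ range (min j M), (1 + 2 * a / ((l : ℝ) + i0))

/-- the weight -/
noncomputable def ph (a : ℝ) (i0 M j : ℕ) : ℝ := √(vv a i0 M j)

/-- ONE: the one-sided kernel. Let `k, θ, δ1, i1` be as in POL, `i0 ≥ i1`, `x_j = j + i0`, `v = vv a i0 M`,
`R j = ∏ l ∈ range j, ((1 + k/x_l)(1-θδ))`, `P j = (c/δ)((1+δ) R j - sh R j) > 0`. SCH with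
`l = c/δ`, `r_i = √v_i R_i`, `p_j = √v_j P_j`: (1) `∑_{j ≤ i} (1+δ)^(-(i-j+1)) P_j = (c/δ) R_i`
(telescoping), so the first condition is an equality. (2) `U_j = ∑_{i=j}^N (1+δ)^(-(i-j+1)) v_i R_i`
satisfies `(1+δ) U_j = v_j R_j + U_{j+1}`, `U_{N+1} = 0`; show `U_j ≤ (c/δ) v_j P_j =: Z_j` by
backward induction: needs `v_j R_j + Z_{j+1} ≤ (1+δ) Z_j`, which after division by
`(c²/δ²) v_j R_j` is the inequality of POL at `x = x_j` (`R_{j-1}/R_j = (x-1)/((x-1+k)(1-θδ))` for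
`j ≥ 1`, and `0` for `j = 0`, which is better; `R_{j+1}/R_j = (1+k/x)(1-θδ)`;
`v_{j+1}/v_j = 1 + 2a/x` or `1` (if `j ≥ M`), better since `(1+δ)(1+k/x)(1-θδ) ≥ 1`). -/
def StONE : Prop :=
  StSCH → StPOL → ∀ c a : ℝ, 1 < c → 0 < a → a < ss c / (1 + ss c) →
    ∃ (δ1 : ℝ) (i1 : ℕ), 0 < δ1 ∧ δ1 ≤ 1 ∧ 1 ≤ i1 ∧ ∀ i0 : ℕ, i1 ≤ i0 → ∀ (M N : ℕ) (δ : ℝ),
      0 < δ → δ ≤ δ1 →
        KB (fun i j : Fin (N + 1) => k1 δ i j * (ph a i0 M i / ph a i0 M j)) (c * δ⁻¹)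

/-- VPR: properties of the weights (`0 < a < 1/2`, `i0 ≥ 1`). (1) positive, `ph 0 = 1`, monotone,
constant from `M` on. (2) growth: `1 + 2a/x ≥ (1 + 1/x)^(2a)` (Bernoulli), telescoping.
(3) `1 + 2a/x ≤ (x+1)/x`, so `v i/v j ≤ (i+i0)/(j+i0) ≤ 1 + (i-j)/i0` for `j ≤ i`.
(4) `S_M = ∑_{j<M} v_M/v_j` satisfies `S_{M+1} = (1 + 2a/(M+i0))(S_M + 1)` (with `v` of the longer
plateau; the ratio `v_M/v_j` for `j ≤ M` does not depend on the plateau), so `S_M ≤ 2/(1-2a) (M+i0)` by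
induction. (5) for `M ≥ i0` from (4); for `M < i0` each term is at most `1` because
`√(v_M/v_j) ≤ √2 ≤ 2`. -/
def StVPR : Prop :=
  ∀ (a : ℝ) (i0 M : ℕ), 0 < a → a < 1 / 2 → 1 ≤ i0 →
    (∀ j, 0 < ph a i0 M j) ∧ ph a i0 M 0 = 1 ∧
    (∀ i j, i ≤ j → ph a i0 M i ≤ ph a i0 M j) ∧
    (∀ i, M ≤ i → ph a i0 M i = ph a i0 M M) ∧
    (((M : ℝ) + i0) / i0) ^ (2 * a) ≤ ph a i0 M M ^ 2 ∧
    (∀ i j, j ≤ i → (ph a i0 M i / ph a i0 M j) ^ 2 ≤ 1 + (((i - j : ℕ) : ℝ)) / i0) ∧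
    (ph a i0 M M ^ 2 * ∑ j ∈ range M, (ph a i0 M j ^ 2)⁻¹ ≤ 2 / (1 - 2 * a) * ((M : ℝ) + i0)) ∧
    (∑ j ∈ range M, (ph a i0 M M / ph a i0 M j - 1) ^ 2 ≤ 4 / (1 - 2 * a) * M)

/-- BIG: the two-sided kernel for `δ (N+1)` large, by averaging over cuts. `P` = the `m` with
`N < 4m`, `4m ≤ 3N`, at least `(N+1)/4` of them. For `m ∈ P` the kernel
`K^m = k1 φ_i/φ_j` if `i, j < m`, `k1 φ_{N-j}/φ_{N-i}` if `i, j ≥ m`, `0` otherwise, has KB bound `C δ⁻¹` (`kb_block`;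
the second kernel is the transposed reversed first one, see the proof of `kbWS` in Helper57.KR.K6).
So has the average of the `K^m` over `P`. If `m ∈ P` does not separate `j ≤ i` then `K^m i j` is the two-sided
kernel (`φ = Φ` at all indices `≥ M`, `8M ≤ N`). If it separates (`j < m ≤ i`; at most `i - j` such `m`):
for `M ≤ j`, `i ≤ N - M` the two-sided kernel is `k1`, and `(i-j)/|P| k1 ≤ 4/(N+1) (i-j) k1` has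
KB bound `4/(N+1) δ⁻²` (Schur with `∑ d q^(d+1) ≤ δ⁻²`); otherwise `i - j + 1 ≥ (N+1)/8`,
`k1 ≤ 2/((N+1)δ/8)² = 128/((N+1)δ)²` (`(1+δ)^n ≥ 1 + nδ + n(n-1)δ²/2 ≥ n²δ²/2`), the two-sided ratio is at most
`(Φ/φ_j)(Φ/φ_{N-i})`, rank one: `128/((N+1)δ)² B (N+1)`. -/
def StBIG : Prop :=
  ∀ (φ : ℕ → ℝ) (Φ B C δ : ℝ) (M N : ℕ), (∀ i, 0 < φ i) → (∀ i, φ i ≤ Φ) →
    (∀ i, M ≤ i → φ i = Φ) → 8 * M ≤ N → 16 ≤ N → 0 < δ → δ ≤ 1 → 0 ≤ C → 0 ≤ B →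
    KB (fun i j : Fin (N + 1) => k1 δ i j * (φ i / φ j)) (C * δ⁻¹) →
    Φ ^ 2 * ∑ j ∈ range (N + 1), (φ j ^ 2)⁻¹ ≤ B * ((N : ℝ) + 1) →
    KB (fun i j : Fin (N + 1) => k1 δ i j * ((φ i / φ (N - i)) / (φ j / φ (N - j))))
      ((C + (4 + 128 * B) / (δ * ((N : ℝ) + 1))) * δ⁻¹)

/-- SML: the two-sided kernel for `δ (N+1)` bounded. `k1 ≤ 1`, the ratio is at most
`(Φ/φ_j)(Φ/φ_{N-i}) = (1+α_j)(1+β_i)`, `α_j = Φ/φ_j - 1` (zero for `j ≥ M`), `β_i = α_{N-i}`;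
`k1` has bound `δ⁻¹` (`kb1`), `α_j`, `β_i` and `α_j β_i` are of rank one: `√(N+1) √S`, `√(N+1) √S`, `S`. -/
def StSML : Prop :=
  ∀ (φ : ℕ → ℝ) (Φ S δ : ℝ) (M N : ℕ), (∀ i, 0 < φ i) → (∀ i, φ i ≤ Φ) →
    (∀ i, M ≤ i → φ i = Φ) → M ≤ N → 0 < δ → δ ≤ 1 →
    ∑ j ∈ range M, (Φ / φ j - 1) ^ 2 ≤ S →
    KB (fun i j : Fin (N + 1) => k1 δ i j * ((φ i / φ (N - i)) / (φ j / φ (N - j))))
      (δ⁻¹ + 2 * √(((N : ℝ) + 1) * S) + S)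

/-- CRU: the two-sided kernel for `δ` not small. For `j ≤ i` the ratio is
`(φ_i/φ_j)(φ_{N-j}/φ_{N-i}) ≤ √(1+(i-j)/i0)² = 1 + (i-j)/i0`; `k1` has bound `δ⁻¹`, and `(i-j) k1` has bound
`δ⁻²` (Schur, `∑ d q^(d+1) ≤ δ⁻²`). -/
def StCRU : Prop :=
  ∀ (φ : ℕ → ℝ) (δ : ℝ) (i0 N : ℕ), (∀ i, 0 < φ i) → 1 ≤ i0 → 0 < δ → δ ≤ 1 →
    (∀ i j, j ≤ i → (φ i / φ j) ^ 2 ≤ 1 + (((i - j : ℕ) : ℝ)) / i0) →
    KB (fun i j : Fin (N + 1) => k1 δ i j * ((φ i / φ (N - i)) / (φ j / φ (N - j))))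
      ((1 + 1 / (i0 * δ)) * δ⁻¹)

end Pool.Agent.Helper57.KE
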