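import Pool.Agent.Helper57.KE.St

/-!
# Project KF (MP_45ac3c_an): the endpoint, exact order of growth `n ^ E(c)` for `c > 1`

`s = ss c`, `p = pp c = (1-s)/(1+s)`, `E = 1 - p`, `a = s/(1+s) = (1-p)/2`, `p s = a (1-s)`.
Definitions and remarks as in `Pool.Agent.Helper57.KE.St`.
-/

set_option autoImplicit false

open scoped BigOperators
open Finset

namespace Pool.Agent.Helper57.KE

open Pool.Agent.Helper65.RG Pool.Agent.Helper57.KR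

/-! ## Upper bound -/

/-- LB0 (adapt the proof of `hLB` in Pool/Agent/Helper45/KE/M_LB.lean): the lower bound for the
derivative at `ω = p`, `ω' = 1 - p`. As in LB: `∑ v i k^(2p-2) e^(-2y) (p(1-p) + 4 p y - 4 y^2 +
6s/(1-s) (1+y)(σ/s + 1/k)) ≥ - 2s/(1-s) v m (sh g m)^2`, and now the bracket of `dPsi` is exactly
`ω ω' + 2(ω+1-ω') y - 4y^2 = p(1-p) + 4 p y - 4 y^2`; the rest is
`k^(2p-2) e^(-2y) (1+y)(σ/s+1/k) ≤ (1/s) k^(2p-3) (1+y)^2 e^(-2y) ≤ (1/s) k^(2p-3)`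
(`σ/s + 1/k = (y/s+1)/k ≤ (1+y)/(s k)`, `1+y ≤ e^y`). So `B = 6/(1-s)`,
`σ0 = min s ((1-s)/s)`. -/
def StLBZ : Prop :=
  StPT → ∀ c : ℝ, 1 < c → ∃ (σ0 B : ℝ), 0 < σ0 ∧ 0 ≤ B ∧
    ∀ (v : ℕ → ℝ), QF c v → ∀ (m : ℕ) (σ : ℝ), 0 < σ → σ ≤ σ0 →
      -(σ ^ (pp c - 1) * (B * (∑ i ∈ range m, v i * ((i : ℝ) + 1) ^ (2 * pp c - 3) +
          v m * (sh (gg (pp c) σ) m) ^ 2))) ≤
        dPsi v (pp c) (pp c) (1 - pp c) m σ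

/-- ABE: summation. Dyadic blocks: the terms with `2^j ≤ i+1 < 2^(j+1)` give at most
`2^(j(2p-3)) A (2^(j+1))^(2-p+η) = A 2^(2-p+η) 2^(-j(1-p-η))`; geometric series. (Or Abel summation:
`k^(2p-3) - (k+1)^(2p-3) ≤ 3 k^(2p-4)`, `∑ k^(p-2+η) < ∞`.) -/
def StABE : Prop :=
  ∀ (p η : ℝ), 0 < p → 0 < η → p + η < 1 → ∃ K : ℝ, 0 ≤ K ∧
    ∀ (v : ℕ → ℝ) (A : ℝ), (∀ i, 0 ≤ v i) →
      (∀ n : ℕ, 1 ≤ n → ∑ i ∈ range n, v i ≤ A * (n : ℝ) ^ (2 - p + η)) →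
      ∀ m : ℕ, ∑ i ∈ range m, v i * ((i : ℝ) + 1) ^ (2 * p - 3) ≤ K * A

/-- GRZ (adapt the proof of `hGRO` in Pool/Agent/Helper94/KE/M_GRO.lean, now `η = 0`): with `ω = p`,
`ω' = 1 - p`, `σ1 = σ0/n`, `m ≥ n` so large that `v m (sh g m)^2 ≤ A (m+1)^2 m^(2p) e^(-2 σ1 m) ≤ A`
for all `σ ≥ σ1`: `Psi + B (K A + A) σ^p/p` is monotone on `[σ1, σ0]`, so
`Psi σ1 ≤ Psi σ0 + B (K+1) A σ0^p/p ≤ C' A`, and `Psi σ1 ≥ σ1^p (1-p) e^(-2σ0) n^(2p-2) V_n`. So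
`V_n ≤ C A n^(2-2p+p) = C A n^(2-p)`. -/
def StGRZ : Prop :=
  StDER → ∀ c : ℝ, 1 < c →
    (∃ (σ0 B : ℝ), 0 < σ0 ∧ 0 ≤ B ∧
      ∀ (v : ℕ → ℝ), QF c v → ∀ (m : ℕ) (σ : ℝ), 0 < σ → σ ≤ σ0 →
        -(σ ^ (pp c - 1) * (B * (∑ i ∈ range m, v i * ((i : ℝ) + 1) ^ (2 * pp c - 3) +
            v m * (sh (gg (pp c) σ) m) ^ 2))) ≤
          dPsi v (pp c) (pp c) (1 - pp c) m σ) →
    (∃ K : ℝ, 0 ≤ K ∧ ∀ (v : ℕ → ℝ), QF c v → ∀ A : ℝ, (∀ i : ℕ, v i ≤ A * ((i : ℝ) + 1) ^ 2) →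
      ∀ m : ℕ, ∑ i ∈ range m, v i * ((i : ℝ) + 1) ^ (2 * pp c - 3) ≤ K * A) →
    ∃ C : ℝ, 0 ≤ C ∧ ∀ (v : ℕ → ℝ), QF c v → ∀ A : ℝ, (∀ i : ℕ, v i ≤ A * ((i : ℝ) + 1) ^ 2) →
      ∀ n : ℕ, 1 ≤ n → ∑ i ∈ range n, v i ≤ C * A * (n : ℝ) ^ (2 - pp c)

/-! ## Lower bound -/

/-- the ratio of the critical test sequence -/
noncomputable def rr (s p α β γ δ x : ℝ) : ℝ :=
  1 + p / x - s * δ + α / x ^ 2 + β * δ / x + γ * δ ^ 2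

/-- POC: the critical inequality (checked numerically). `w = 1/x`, `w' = 1/(x+1) ≤ w - w^2 + w^3`,
`1/(x+1)^2 ≤ w^2 - 2w^3 + 3w^4`, `ρ = rr x - 1`, `ρ' = rr (x+1) - 1`,
`1/(1+ρ) ≤ 1 - ρ + ρ^2 + 2|ρ|^3`, `|ρ| ≤ 2(w+δ) ≤ 1/2`. The right side of (3) minus the left side is at least
`s^2δ^2 + (1+δ)(ρ-ρ') - (1+δ)ρ^2 - (1-p) w δ - (1-p) w (1+δ) ρ' - 4|ρ|^3`. All terms of order 0, 1, 2 in
`(w, δ)` cancel (`p s = a (1-s)`, `2a = 1-p`). The terms of order 3 are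
`w^3 : 2aα - p^2`, `w^2δ : 2sα - pβ`, `wδ^2 : 2sβ - 2(p+a)γ + 2s(p+a)`, `δ^3 : 2sγ - s^2`, minus
`4|ρ|^3 ≤ 32 (w+δ)^3`. Choose `γ = (200+s^2)/(2s) + 8`, then `β = (200 + 2(p+a)γ)/(2s)`, then
`α = (200 + pβ)/(2s) + (200+p^2)/(2a)`: each of the four coefficients is at least 200, so the terms of
order 3 are at least `(200 - 96) (w^3+w^2δ+wδ^2+δ^3)`, and the terms of order `≥ 4` are at most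
`C4 (w+δ)^4`, small for `w ≤ 1/i1`, `δ ≤ δ1`. (2): `(1+δ)(1 - sδ + γδ^2) ≥ 1 + (1-s)δ` (`γ ≥ s`).
(4): the right side is `δ^2 - (1+δ)ρ^2/(1+ρ)`; with `A = sδ - p w ≥ sδ/2` and
`e = αw^2 + βδw + γδ^2 ≤ (α+β+γ) δ^2 ≤ A` (`w ≤ δ`) one has `ρ = -(A - e)`, `ρ^2 ≤ A^2 - A e ≤ A^2 - sγδ^3/2`,
`A^2 = s^2δ^2 - 2 s p w δ + p^2 w^2 ≤ s^2δ^2 - s p w δ` (`p w ≤ sδ`), and
`(1+δ)/(1+ρ) ≤ 1 + 4δ`, `4δ ρ^2 ≤ 4 s^2 δ^3 ≤ sγδ^3/2` (`γ ≥ 8`). -/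
def StPOC : Prop :=
  ∀ c : ℝ, 1 < c → ∃ (α β γ δ1 : ℝ) (i1 : ℕ), 0 ≤ α ∧ 0 ≤ β ∧ 0 ≤ γ ∧ 0 < δ1 ∧ δ1 ≤ 1 ∧ 2 ≤ i1 ∧
    ∀ (x δ : ℝ), (i1 : ℝ) ≤ x → 0 < δ → δ ≤ δ1 →
      0 < rr (ss c) (pp c) α β γ δ x ∧
      1 + (1 - ss c) * δ ≤ (1 + δ) * rr (ss c) (pp c) α β γ δ x ∧
      δ ^ 2 / c ^ 2 ≤ (1 + δ) ^ 2 - (1 + δ) / rr (ss c) (pp c) α β γ δ x -
        (1 + (1 - pp c) / x) * ((1 + δ) * rr (ss c) (pp c) α β γ δ (x + 1) - 1) ∧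
      (2 / (ss c * x) ≤ δ → δ ^ 2 / c ^ 2 + ss c * pp c * δ / x ≤
        (1 + δ) ^ 2 - (1 + δ) / rr (ss c) (pp c) α β γ δ x -
          ((1 + δ) * rr (ss c) (pp c) α β γ δ x - 1))

/-- the square of the corrected weight -/
noncomputable def vw (p e : ℝ) (i0 M j : ℕ) : ℝ :=
  ∏ l ∈ range (min j M), (1 + (1 - p) / ((l : ℝ) + i0) - e)

/-- the corrected weight -/
noncomputable def pw (p e : ℝ) (i0 M j : ℕ) : ℝ := √(vw p e i0 M j)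

/-- ONC (adapt the proof of `hONE` in Pool/Agent/Helper80/KE/M_ONE.lean): the critical one-sided kernel.
`x_j = j + i0`, `v = vw p e i0 M`, `J = ⌊(1-p)/e⌋ - i0` (natural numbers; `x_J = ⌊(1-p)/e⌋ ≥ M + i0`, so
`J ≥ M`), `r̃ j = rr x_(min j J)`, `R 0 = 1`, `R (j+1) = R j * r̃ (j+1)`, `P j = (c'/δ)((1+δ) R j - sh R j) > 0`
by (2). SCH with `l = c'/δ`, `r_i = √v_i R_i`, `p_j = √v_j P_j`, as in ONE. The rows telescope. The columns need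
`δ^2/c'^2 + (v_{j+1}/v_j)((1+δ) r̃ (j+1) - 1) ≤ (1+δ)^2 - (1+δ)/r̃ j` (for `j = 0` without the last term).
For `j < J`: `e x_j ≤ 1-p`, so `v_{j+1}/v_j ≤ 1 + (1-p)/x_j - e` (equality for `j < M`, ratio `1` for
`j ≥ M`); by (3), (2) the slack is `e ((1+δ) r̃ (j+1) - 1) ≥ e (1-s) δ`. For `j ≥ J`: the ratio is `1`,
`r̃ j = r̃ (j+1) = rr x_J`, and (4) applies: `x_J > (1-p)/e - 1 ≥ (1-p)/(2e)` (`(1-p)/e ≥ i0 ≥ 2`), so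
`2/(s x_J) ≤ 4e/(s(1-p)) ≤ δ`; slack `s p δ/x_J ≥ s p δ e/(1-p) = (1-s) e δ/2`
(`s p = (1-p)(1-s)/2` because `p = (1-s)/(1+s)`). -/
def StONC : Prop :=
  StSCH → StPOC → ∀ c : ℝ, 1 < c → ∃ (δ1 : ℝ) (i1 : ℕ), 0 < δ1 ∧ δ1 ≤ 1 ∧ 2 ≤ i1 ∧
    ∀ i0 : ℕ, i1 ≤ i0 → ∀ (M N : ℕ) (δ e c' : ℝ), 0 < δ → δ ≤ δ1 → 0 < e →
      4 * e ≤ ss c * (1 - pp c) * δ → e * ((M : ℝ) + i0) ≤ 1 - pp c → 0 < c' →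
      δ ^ 2 / c' ^ 2 ≤ δ ^ 2 / c ^ 2 + (1 - ss c) * e * δ / 2 →
        KB (fun i j : Fin (N + 1) => k1 δ i j * (pw (pp c) e i0 M i / pw (pp c) e i0 M j))
          (c' * δ⁻¹)

/-- VPC: properties of the corrected weights, from VPR with `a = (1-p)/2`: all factors are `≥ 1` (`l < M`:
`(1-p)/(l+i0) ≥ e`), and for `j ≤ i` one has `vw i/vw j ≤ vv i/vv j` (compare the factors); so (3), (4), (5)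
follow from VPR ((5): `0 ≤ pw M/pw j - 1 ≤ ph M/ph j - 1`). Growth: `1 + (1-p)/x - e ≥ (1 + (1-p)/x)(1-e)`,
`∏ (1-e) ≥ 1 - M e ≥ 1 - (1-p) = p` (`e (M+i0) ≤ 1-p`, `i0 ≥ 1`). -/
def StVPC : Prop :=
  StVPR → ∀ (p e : ℝ) (i0 M : ℕ), 0 < p → p < 1 → 1 ≤ i0 → 0 ≤ e → e * ((M : ℝ) + i0) ≤ 1 - p →
    (∀ j, 0 < pw p e i0 M j) ∧ pw p e i0 M 0 = 1 ∧
    (∀ i j, i ≤ j → pw p e i0 M i ≤ pw p e i0 M j) ∧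
    (∀ i, M ≤ i → pw p e i0 M i = pw p e i0 M M) ∧
    (p * (((M : ℝ) + i0) / i0) ^ (1 - p) ≤ pw p e i0 M M ^ 2) ∧
    (∀ i j, j ≤ i → (pw p e i0 M i / pw p e i0 M j) ^ 2 ≤ 1 + (((i - j : ℕ) : ℝ)) / i0) ∧
    (pw p e i0 M M ^ 2 * ∑ j ∈ range M, (pw p e i0 M j ^ 2)⁻¹ ≤ 2 / p * ((M : ℝ) + i0)) ∧
    (∑ j ∈ range M, (pw p e i0 M M / pw p e i0 M j - 1) ^ 2 ≤ 4 / p * M)

end Pool.Agent.Helper57.KE
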