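import Pool.Agent.Helper57.KE.St
import Pool.Agent.Helper57.KR.K4

/-!
# The upper half: assembly
-/

set_option autoImplicit false

open scoped BigOperators
open Finset

namespace Pool.Agent.Helper57.KE

open Pool.Agent.Helper65.RG Pool.Agent.Helper57.KR

universe u

lemma bb_shift {r : ℝ} (hr : r ≠ 0) (g : ℕ → ℝ) (L : ℕ) :
    bb (fun i => r * g i - sh g i) r L = g L := by
  induction L with
  | zero =>
    have h := bb_zero (c := fun i => r * g i - sh g i) hr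
    simp only [sh, if_true, sub_zero] at h
    exact mul_left_cancel₀ hr h
  | succ L ih =>
    have h := bb_succ (c := fun i => r * g i - sh g i) hr L
    rw [ih] at h
    have h2 : sh g (L + 1) = g L := by
      unfold sh
      rw [if_neg (by omega), Nat.add_sub_cancel]
    simp only [h2] at h
    have h3 : r * bb (fun i => r * g i - sh g i) r (L + 1) = r * g (L + 1) := by linarith
    exact mul_left_cancel₀ hr h3

section

variable {H : Type u} [NormedAddCommGroup H] [InnerProductSpace ℂ H] [CompleteSpace H]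

lemma qf_orbit {c : ℝ} (hc : 0 ≤ c) {T : H →L[ℂ] H} (hs : spectrum ℂ T ⊆ Metric.closedBall 0 1)
    (hT : ∀ z : ℂ, 1 < ‖z‖ → ‖z‖ ≤ 2 → ‖resolvent T z‖ ≤ c / (‖z‖ - 1))
    {M : ℝ} (hM : ∀ n : ℕ, ‖T ^ n‖ ≤ M * (1 + (n : ℝ))) (x : H) :
    QF c (fun i => ‖(T ^ i) x‖ ^ 2) := by
  refine ⟨fun i => by positivity, fun δ hδ hδ1 g m => ?_⟩
  set g' : ℕ → ℝ := fun i => if i < m then g i else 0 with hg'
  set cs : ℕ → ℝ := fun i => (1 + δ) * g' i - sh g' i with hcsd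
  have hcs : ∀ j, m + 1 ≤ j → cs j = 0 := by
    intro j hj
    simp only [hcsd, hg', sh]
    rw [if_neg (by omega), if_neg (by omega), if_neg (by omega)]
    ring
  have h := lim2 hc hs hT (r := 1 + δ) (by linarith) (by linarith) hM cs hcs x
  have hr : (1 + δ) ≠ 0 := by linarith
  have hbb : ∀ i, bb cs (1 + δ) i = g' i := fun i => bb_shift hr g' i
  simp only [hbb, add_sub_cancel_left] at h
  rw [sum_range_succ, sum_range_succ] at h
  have e1 : ∑ i ∈ range m, g' i ^ 2 * ‖(T ^ i) x‖ ^ 2 = ∑ i ∈ range m, ‖(T ^ i) x‖ ^ 2 * g i ^ 2 := by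
    refine sum_congr rfl fun i hi => ?_
    simp only [hg']
    rw [if_pos (mem_range.1 hi)]
    ring
  have e2 : g' m = 0 := by
    simp only [hg']
    rw [if_neg (lt_irrefl m)]
  have e3 : ∑ i ∈ range m, cs i ^ 2 * ‖(T ^ i) x‖ ^ 2 =
      ∑ i ∈ range m, ‖(T ^ i) x‖ ^ 2 * ((1 + δ) * g i - sh g i) ^ 2 := by
    refine sum_congr rfl fun i hi => ?_
    have hi' := mem_range.1 hi
    have e4 : g' i = g i := by
      simp only [hg']
      rw [if_pos hi']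
    have e5 : sh g' i = sh g i := by
      unfold sh
      split_ifs with h0
      · rfl
      · simp only [hg']
        rw [if_pos (by omega)]
    simp only [hcsd]
    rw [e4, e5]
    ring
  have e6 : cs m ^ 2 = (sh g m) ^ 2 := by
    have e5 : sh g' m = sh g m := by
      unfold sh
      split_ifs with h0
      · rfl
      · simp only [hg']
        rw [if_pos (by omega)]
    simp only [hcsd]
    rw [e2, e5]
    ring
  rw [e1, e2, e3, e6] at h
  have h2 : δ ^ 2 * (∑ i ∈ range m, ‖(T ^ i) x‖ ^ 2 * g i ^ 2 + 0 ^ 2 * ‖(T ^ m) x‖ ^ 2) ≤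
      δ ^ 2 * ((c / δ) ^ 2 * (∑ i ∈ range m, ‖(T ^ i) x‖ ^ 2 * ((1 + δ) * g i - sh g i) ^ 2 +
        sh g m ^ 2 * ‖(T ^ m) x‖ ^ 2)) := by
    gcongr
  have e7 : δ ^ 2 * ((c / δ) ^ 2 * (∑ i ∈ range m, ‖(T ^ i) x‖ ^ 2 * ((1 + δ) * g i - sh g i) ^ 2 +
        sh g m ^ 2 * ‖(T ^ m) x‖ ^ 2)) =
      c ^ 2 * (∑ i ∈ range m, ‖(T ^ i) x‖ ^ 2 * ((1 + δ) * g i - sh g i) ^ 2 +
        ‖(T ^ m) x‖ ^ 2 * sh g m ^ 2) := by
    have hδ' : δ ≠ 0 := hδ.ne'
    field_simp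
  rw [e7] at h2
  refine le_trans (le_of_eq ?_) h2
  ring

end

/-- the upper half, with a constant depending on `c` and `γ` only -/
theorem upper_exact (hPT : StPT) (hDER : StDER) (hLB : StLB) (hGRO : StGRO) (hADJ : StADJ.{u})
    (hCMB : StCMB.{u}) {c γ : ℝ} (hc : 1 < c) (hγ : 1 - pp c < γ) :
    ∃ M : ℝ, ∀ (H : Type u) [NormedAddCommGroup H] [InnerProductSpace ℂ H] [CompleteSpace H]
      (T : H →L[ℂ] H), spectrum ℂ T ⊆ Metric.closedBall 0 1 →
      (∀ z : ℂ, 1 < ‖z‖ → ‖z‖ ≤ 2 → ‖resolvent T z‖ ≤ c / (‖z‖ - 1)) →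
      ∀ n : ℕ, ‖T ^ n‖ ≤ M * (1 + (n : ℝ)) ^ γ := by
  have hc0 : 0 ≤ c := by linarith
  set η : ℝ := γ - (1 - pp c) with hη
  have hη0 : 0 < η := by linarith
  obtain ⟨C, hC0, hC⟩ := hGRO hDER c hc η hη0 (hLB hPT c hc η hη0)
  refine ⟨C * (13 * c) ^ 2, ?_⟩
  intro H _ _ _ T hs hT
  have key : ∀ (S : H →L[ℂ] H), spectrum ℂ S ⊆ Metric.closedBall 0 1 →
      (∀ z : ℂ, 1 < ‖z‖ → ‖z‖ ≤ 2 → ‖resolvent S z‖ ≤ c / (‖z‖ - 1)) →
      ∀ (x : H) (n : ℕ), 1 ≤ n →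
        ∑ i ∈ range n, ‖(S ^ i) x‖ ^ 2 ≤
          C * (13 * c) ^ 2 * (n : ℝ) ^ (2 - pp c + η) * ‖x‖ ^ 2 := by
    intro S hsS hTS
    have hM' : ∀ n : ℕ, ‖S ^ n‖ ≤ 13 * c * (1 + (n : ℝ)) := by
      intro n
      refine (power_saving hc.le hsS hTS n).trans ?_
      have h1 : (1 + (n : ℝ)) ^ (1 - gain c) ≤ (1 + (n : ℝ)) ^ (1 : ℝ) := by
        apply Real.rpow_le_rpow_of_exponent_le
        · have : (0 : ℝ) ≤ n := Nat.cast_nonneg n
          linarith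
        · have := gain_pos (c := c) (by linarith)
          linarith
      rw [Real.rpow_one] at h1
      gcongr
    intro x n hn
    have h1 := hC (fun i => ‖(S ^ i) x‖ ^ 2) (qf_orbit hc0 hsS hTS hM' x) ((13 * c) ^ 2 * ‖x‖ ^ 2)
      (fun i => by
        have h2 : ‖(S ^ i) x‖ ≤ 13 * c * (1 + (i : ℝ)) * ‖x‖ :=
          (ContinuousLinearMap.le_opNorm _ _).trans (by gcongr; exact hM' i)
        calc ‖(S ^ i) x‖ ^ 2 ≤ (13 * c * (1 + (i : ℝ)) * ‖x‖) ^ 2 := by gcongr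
          _ = (13 * c) ^ 2 * ‖x‖ ^ 2 * ((i : ℝ) + 1) ^ 2 := by ring) n hn
    refine h1.trans (le_of_eq ?_)
    ring
  obtain ⟨hs', hT'⟩ := hADJ H T c hs hT
  intro n
  have h3 := hCMB H T (C * (13 * c) ^ 2) (2 - pp c + η) (by positivity)
    (key T hs hT) (key (star T) hs' hT') n
  have e : 2 - pp c + η - 1 = γ := by rw [hη]; ring
  rwa [e] at h3

end Pool.Agent.Helper57.KE
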