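import Pool.Agent.Helper57.KE.St2
import Pool.Agent.Helper57.KE.Up
import Pool.Agent.Helper57.KE.Lo

/-!
# The endpoint: assembly of the upper half
-/

set_option autoImplicit false

open scoped BigOperators
open Finset

namespace Pool.Agent.Helper57.KE

open Pool.Agent.Helper65.RG Pool.Agent.Helper57.KR

universe u

lemma pp_pos {c : ℝ} (hc : 1 < c) : 0 < pp c := by
  have h0 := ss_pos hc
  have h1 := ss_lt_one hc
  unfold pp
  exact div_pos (by linarith) (by linarith)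

lemma pp_lt_one {c : ℝ} (hc : 1 < c) : pp c < 1 := by
  have h0 := ss_pos hc
  have h1 := ss_lt_one hc
  unfold pp
  rw [div_lt_one (by linarith)]
  linarith

/-- the upper half at the endpoint, with a constant depending on `c` only -/
theorem upper_end (hPT : StPT) (hDER : StDER) (hLB : StLB) (hGRO : StGRO) (hADJ : StADJ.{u})
    (hCMB : StCMB.{u}) (hLBZ : StLBZ) (hABE : StABE) (hGRZ : StGRZ) {c : ℝ} (hc : 1 < c) :
    ∃ M : ℝ, ∀ (H : Type u) [NormedAddCommGroup H] [InnerProductSpace ℂ H] [CompleteSpace H]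
      (T : H →L[ℂ] H), spectrum ℂ T ⊆ Metric.closedBall 0 1 →
      (∀ z : ℂ, 1 < ‖z‖ → ‖z‖ ≤ 2 → ‖resolvent T z‖ ≤ c / (‖z‖ - 1)) →
      ∀ n : ℕ, ‖T ^ n‖ ≤ M * (1 + (n : ℝ)) ^ (1 - pp c) := by
  have hc0 : 0 ≤ c := by linarith
  have hp0 := pp_pos hc
  have hp1 := pp_lt_one hc
  set η : ℝ := (1 - pp c) / 2 with hη
  have hη0 : 0 < η := by linarith
  obtain ⟨C1, hC10, hC1⟩ := hGRO hDER c hc η hη0 (hLB hPT c hc η hη0)
  obtain ⟨K, hK0, hK⟩ := hABE (pp c) η hp0 hη0 (by linarith)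
  obtain ⟨C, hC0, hC⟩ := hGRZ hDER c hc (hLBZ hPT c hc) ⟨K * C1, by positivity, by
    intro v hv A hA m
    have h1 := hK v (C1 * A) hv.1 (hC1 v hv A hA) m
    calc _ ≤ K * (C1 * A) := h1
      _ = K * C1 * A := by ring⟩
  refine ⟨C * (13 * c) ^ 2, ?_⟩
  intro H _ _ _ T hs hT
  have key : ∀ (S : H →L[ℂ] H), spectrum ℂ S ⊆ Metric.closedBall 0 1 →
      (∀ z : ℂ, 1 < ‖z‖ → ‖z‖ ≤ 2 → ‖resolvent S z‖ ≤ c / (‖z‖ - 1)) →
      ∀ (x : H) (n : ℕ), 1 ≤ n →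
        ∑ i ∈ range n, ‖(S ^ i) x‖ ^ 2 ≤
          C * (13 * c) ^ 2 * (n : ℝ) ^ (2 - pp c) * ‖x‖ ^ 2 := by
    intro S hsS hTS
    have hM' : ∀ n : ℕ, ‖S ^ n‖ ≤ 13 * c * (1 + (n : ℝ)) := by
      intro n
      refine (power_saving hc.le hsS hTS n).trans ?_
      have h1 : (1 + (n : ℝ)) ^ (1 - gain c) ≤ (1 + (n : ℝ)) ^ (1 : ℝ) := by
        apply Real.rpow_le_rpow_of_exponent_le
        · have : (0 : ℝ) ≤ n := Nat.cast_nonneg n
          linarith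
        · have := gain_pos (c := c) (by linarith)
          linarith
      rw [Real.rpow_one] at h1
      gcongr
    intro x n hn
    have h1 := hC (fun i => ‖(S ^ i) x‖ ^ 2) (qf_orbit hc0 hsS hTS hM' x) ((13 * c) ^ 2 * ‖x‖ ^ 2)
      (fun i => by
        have h2 : ‖(S ^ i) x‖ ≤ 13 * c * (1 + (i : ℝ)) * ‖x‖ :=
          (ContinuousLinearMap.le_opNorm _ _).trans (by gcongr; exact hM' i)
        calc ‖(S ^ i) x‖ ^ 2 ≤ (13 * c * (1 + (i : ℝ)) * ‖x‖) ^ 2 := by gcongr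
          _ = (13 * c) ^ 2 * ‖x‖ ^ 2 * ((i : ℝ) + 1) ^ 2 := by ring) n hn
    refine h1.trans (le_of_eq ?_)
    ring
  obtain ⟨hs', hT'⟩ := hADJ H T c hs hT
  intro n
  have h3 := hCMB H T (C * (13 * c) ^ 2) (2 - pp c) (by positivity)
    (key T hs hT) (key (star T) hs' hT') n
  have e : 2 - pp c - 1 = 1 - pp c := by ring
  rwa [e] at h3

end Pool.Agent.Helper57.KE
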